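import Pool.Agent.Helper47_Distal.Defs

/-!
# Closure properties of real valued distal sequences
-/

open Filter Topology

namespace Pool.Agent.Helper47_Distal

/-- Topological form of distality, phrased with ultrafilters. -/
def Distal' {X : Type} [TopologicalSpace X] (T : X → X) : Prop :=
  ∀ (x y z : X) (p : Ultrafilter ℕ),
    Tendsto (fun n : ℕ => T^[n] x) p (𝓝 z) → Tendsto (fun n : ℕ => T^[n] y) p (𝓝 z) → x = y

theorem IsDistalMap.distal' {X : Type} [MetricSpace X] {T : X → X} (h : IsDistalMap T) :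
    Distal' T := by
  intro x y z p hx hy
  by_contra hne
  have h1 := h x y hne
  have h2 : Tendsto (fun n : ℕ => dist (T^[n] x) (T^[n] y)) p (𝓝 (dist z z)) := hx.dist hy
  rw [dist_self] at h2
  have h3 : ∀ᶠ n in (p : Filter ℕ), dist (T^[n] x) (T^[n] y) < ⨅ n : ℕ, dist (T^[n] x) (T^[n] y) :=
    h2.eventually (gt_mem_nhds h1)
  obtain ⟨n, hn⟩ := h3.exists
  have h4 : (⨅ n : ℕ, dist (T^[n] x) (T^[n] y)) ≤ dist (T^[n] x) (T^[n] y) :=
    ciInf_le ⟨0, by rintro _ ⟨m, rfl⟩; exact dist_nonneg⟩ n
  exact absurd hn (not_lt.mpr h4)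

theorem Distal'.isDistalMap {X : Type} [MetricSpace X] [CompactSpace X] {T : X → X}
    (h : Distal' T) : IsDistalMap T := by
  intro x y hne
  by_contra hcon
  have h0 : (0 : ℝ) ≤ ⨅ n : ℕ, dist (T^[n] x) (T^[n] y) := le_ciInf fun n => dist_nonneg
  have h1 : (⨅ n : ℕ, dist (T^[n] x) (T^[n] y)) = 0 := le_antisymm (not_lt.mp hcon) h0
  have h2 : ∀ ε : ℝ, 0 < ε → ∃ n : ℕ, dist (T^[n] x) (T^[n] y) < ε := by
    intro ε hε
    exact exists_lt_of_ciInf_lt (by rw [h1]; exact hε)
  set F : Filter ℕ := comap (fun n : ℕ => dist (T^[n] x) (T^[n] y)) (𝓝 0) with hF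
  have hne' : F.NeBot := by
    rw [hF, Metric.nhds_basis_ball.comap _ |>.neBot_iff]
    intro ε hε
    obtain ⟨n, hn⟩ := h2 ε hε
    refine ⟨n, ?_⟩
    simp only [Set.mem_preimage, Metric.mem_ball, dist_zero_right, Real.norm_eq_abs]
    rwa [abs_of_nonneg dist_nonneg]
  obtain ⟨p, hp⟩ := Ultrafilter.exists_le F
  obtain ⟨z, -, hz⟩ := isCompact_univ.ultrafilter_le_nhds (p.map fun n : ℕ => T^[n] x)
    (by simp)
  obtain ⟨z', -, hz'⟩ := isCompact_univ.ultrafilter_le_nhds (p.map fun n : ℕ => T^[n] y)
    (by simp)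
  have hz1 : Tendsto (fun n : ℕ => T^[n] x) p (𝓝 z) := hz
  have hz2 : Tendsto (fun n : ℕ => T^[n] y) p (𝓝 z') := hz'
  have h3 : Tendsto (fun n : ℕ => dist (T^[n] x) (T^[n] y)) p (𝓝 (dist z z')) := hz1.dist hz2
  have h4 : Tendsto (fun n : ℕ => dist (T^[n] x) (T^[n] y)) p (𝓝 0) := by
    have : Tendsto (fun n : ℕ => dist (T^[n] x) (T^[n] y)) F (𝓝 0) := tendsto_comap
    exact this.mono_left hp
  have h5 : dist z z' = 0 := tendsto_nhds_unique h3 h4
  have h6 : z = z' := dist_eq_zero.mp h5
  subst h6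
  exact hne (h x y z p hz1 hz2)

/-- A pointed compact metrizable distal system. -/
structure DSys where
  X : Type
  [top : TopologicalSpace X]
  [cpt : CompactSpace X]
  [t2 : T2Space X]
  [sc : SecondCountableTopology X]
  T : X → X
  cont : Continuous T
  dist : Distal' T
  pt : X

attribute [instance] DSys.top DSys.cpt DSys.t2 DSys.sc

/-- The sequence `a` is read off continuously from the orbit of the base point. -/
def DSys.Reads (D : DSys) (a : ℕ → ℝ) : Prop :=
  ∃ F : D.X → ℝ, Continuous F ∧ ∀ n, a n = F (D.T^[n] D.pt)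

/-- Real valued distal sequences. -/
def RD (a : ℕ → ℝ) : Prop := ∃ D : DSys, D.Reads a

/-- Countable products. -/
def DSys.pi (D : ℕ → DSys) : DSys where
  X := ∀ j, (D j).X
  T := fun v j => (D j).T (v j)
  cont := continuous_pi fun j => (D j).cont.comp (continuous_apply j)
  dist := by
    have hit : ∀ (n : ℕ) (v : ∀ j, (D j).X) (j : ℕ),
        ((fun (v : ∀ j, (D j).X) j => (D j).T (v j))^[n] v) j = (D j).T^[n] (v j) := by
      intro n
      induction n with
      | zero => intro v j; rfl
      | succ n ih =>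
        intro v j
        rw [Function.iterate_succ_apply, ih, Function.iterate_succ_apply]
    intro x y z p hx hy
    funext j
    refine (D j).dist (x j) (y j) (z j) p ?_ ?_
    · have := (tendsto_pi_nhds.mp hx) j
      simpa only [hit] using this
    · have := (tendsto_pi_nhds.mp hy) j
      simpa only [hit] using this
  pt := fun j => (D j).pt

theorem DSys.pi_iterate (D : ℕ → DSys) (n : ℕ) (j : ℕ) :
    ((DSys.pi D).T^[n] (DSys.pi D).pt) j = (D j).T^[n] (D j).pt := by
  have hit : ∀ (n : ℕ) (v : (DSys.pi D).X),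
      ((DSys.pi D).T^[n] v) j = (D j).T^[n] (v j) := by
    intro n
    induction n with
    | zero => intro v; rfl
    | succ n ih =>
      intro v
      rw [Function.iterate_succ_apply, ih, Function.iterate_succ_apply]
      rfl
  rw [hit]
  rfl

/-- Functional calculus for countable families of distal sequences. -/
theorem RD.comp {a : ℕ → ℕ → ℝ} (h : ∀ j, RD (a j)) {G : (ℕ → ℝ) → ℝ} (hG : Continuous G) :
    RD (fun n => G (fun j => a j n)) := by
  choose D F hF hFa using h
  refine ⟨DSys.pi D, fun v => G (fun j => F j (v j)), ?_, ?_⟩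
  · apply hG.comp
    exact continuous_pi fun j => (hF j).comp (continuous_apply j)
  · intro n
    show G (fun j => a j n) = G (fun j => F j (((DSys.pi D).T^[n] (DSys.pi D).pt) j))
    congr 1
    funext j
    rw [hFa, DSys.pi_iterate]

theorem RD.comp1 {a : ℕ → ℝ} (h : RD a) {g : ℝ → ℝ} (hg : Continuous g) :
    RD (fun n => g (a n)) :=
  RD.comp (a := fun _ => a) (fun _ => h) (G := fun v => g (v 0)) (hg.comp (continuous_apply 0))

theorem RD.comp2 {a b : ℕ → ℝ} (ha : RD a) (hb : RD b) {g : ℝ → ℝ → ℝ}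
    (hg : Continuous fun p : ℝ × ℝ => g p.1 p.2) :
    RD (fun n => g (a n) (b n)) := by
  have hG : Continuous (fun v : ℕ → ℝ => g (v 0) (v 1)) := by
    have h0 : Continuous (fun v : ℕ → ℝ => ((v 0, v 1) : ℝ × ℝ)) :=
      (continuous_apply 0).prodMk (continuous_apply 1)
    exact hg.comp h0
  have := RD.comp (a := fun j => if j = 0 then a else b)
    (fun j => by by_cases hj : j = 0 <;> simp [hj, ha, hb]) hG
  simpa using this

theorem RD.add {a b : ℕ → ℝ} (ha : RD a) (hb : RD b) : RD (fun n => a n + b n) :=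
  RD.comp2 ha hb (g := fun x y => x + y) (by fun_prop)

theorem RD.sub {a b : ℕ → ℝ} (ha : RD a) (hb : RD b) : RD (fun n => a n - b n) :=
  RD.comp2 ha hb (g := fun x y => x - y) (by fun_prop)

theorem RD.mul {a b : ℕ → ℝ} (ha : RD a) (hb : RD b) : RD (fun n => a n * b n) :=
  RD.comp2 ha hb (g := fun x y => x * y) (by fun_prop)

/-- The one point system. -/
def DSys.triv : DSys where
  X := Unit
  T := id
  cont := continuous_id
  dist := by intro x y z p _ _; rfl
  pt := ()

theorem RD.const (c : ℝ) : RD (fun _ => c) :=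
  ⟨DSys.triv, fun _ => c, continuous_const, fun _ => rfl⟩

theorem RD.const_mul {a : ℕ → ℝ} (ha : RD a) (c : ℝ) : RD (fun n => c * a n) :=
  RD.comp1 ha (g := fun x => c * x) (by fun_prop)

theorem RD.sum {ι : Type} (s : Finset ι) {a : ι → ℕ → ℝ} (h : ∀ i ∈ s, RD (a i)) :
    RD (fun n => ∑ i ∈ s, a i n) := by
  classical
  induction s using Finset.induction_on with
  | empty => simpa using RD.const 0
  | insert i s hi ih =>
    have h1 := RD.add (h i (Finset.mem_insert_self i s))
      (ih fun j hj => h j (Finset.mem_insert_of_mem hj))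
    convert h1 using 2 with n
    rw [Finset.sum_insert hi]

/-- Clamping to `[-c, c]`. -/
noncomputable def clamp (c x : ℝ) : ℝ := max (-c) (min c x)

theorem clamp_cont (c : ℝ) : Continuous (clamp c) := by
  unfold clamp; fun_prop

theorem clamp_abs {c : ℝ} (hc : 0 ≤ c) (x : ℝ) : |clamp c x| ≤ c := by
  unfold clamp
  rw [abs_le]
  constructor
  · exact le_max_left _ _
  · exact max_le (by linarith) (min_le_left _ _)

theorem clamp_eq {c x : ℝ} (h : |x| ≤ c) : clamp c x = x := by
  unfold clamp
  rw [abs_le] at h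
  rw [min_eq_right h.2, max_eq_right h.1]

/-- Absolutely and uniformly convergent series of distal sequences. -/
theorem RD.tsum {a : ℕ → ℕ → ℝ} (h : ∀ j, RD (a j)) {η : ℕ → ℝ} (hη : Summable η)
    (hb : ∀ j n, |a j n| ≤ η j) : RD (fun n => ∑' j, a j n) := by
  have hη0 : ∀ j, 0 ≤ η j := fun j => (abs_nonneg _).trans (hb j 0)
  have hG : Continuous (fun v : ℕ → ℝ => ∑' j, clamp (η j) (v j)) := by
    refine continuous_tsum (u := η) (fun j => (clamp_cont _).comp (continuous_apply j)) hη ?_
    intro j v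
    rw [Real.norm_eq_abs]
    exact clamp_abs (hη0 j) _
  have := RD.comp h hG
  convert this using 2 with n
  congr 1
  funext j
  exact (clamp_eq (hb j n)).symm

/-- The circle extension defined by a real valued cocycle. -/
noncomputable def DSys.skew (D : DSys) (φ : D.X → ℝ) (hφ : Continuous φ) : DSys where
  X := D.X × Circle
  T := fun v => (D.T v.1, Circle.exp (φ v.1) * v.2)
  cont := by
    refine (D.cont.comp continuous_fst).prodMk ?_
    exact ((Circle.exp.continuous.comp (hφ.comp continuous_fst))).mul continuous_snd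
  dist := by
    have hit : ∀ (n : ℕ) (x : D.X), ∃ c : Circle, ∀ w : Circle,
        ((fun v : D.X × Circle => (D.T v.1, Circle.exp (φ v.1) * v.2))^[n] (x, w)) =
          (D.T^[n] x, c * w) := by
      intro n
      induction n with
      | zero => intro x; exact ⟨1, fun w => by simp⟩
      | succ n ih =>
        intro x
        obtain ⟨c, hc⟩ := ih x
        refine ⟨Circle.exp (φ (D.T^[n] x)) * c, fun w => ?_⟩
        rw [Function.iterate_succ_apply', hc, Function.iterate_succ_apply']
        simp [mul_assoc]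
    intro x y z p hx hy
    have h1 : x.1 = y.1 := by
      refine D.dist x.1 y.1 z.1 p ?_ ?_
      · have := (continuous_fst.tendsto z).comp hx
        refine this.congr fun n => ?_
        obtain ⟨c, hc⟩ := hit n x.1
        show ((fun v : D.X × Circle => (D.T v.1, Circle.exp (φ v.1) * v.2))^[n] x).1 = _
        rw [show x = (x.1, x.2) from rfl, hc]
      · have := (continuous_fst.tendsto z).comp hy
        refine this.congr fun n => ?_
        obtain ⟨c, hc⟩ := hit n y.1
        show ((fun v : D.X × Circle => (D.T v.1, Circle.exp (φ v.1) * v.2))^[n] y).1 = _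
        rw [show y = (y.1, y.2) from rfl, hc]
    choose c hc using hit
    have h2 : Tendsto (fun n => c n x.1 * x.2) p (𝓝 z.2) := by
      have := (continuous_snd.tendsto z).comp hx
      refine this.congr fun n => ?_
      show ((fun v : D.X × Circle => (D.T v.1, Circle.exp (φ v.1) * v.2))^[n] x).2 = _
      rw [show x = (x.1, x.2) from rfl, hc]
    have h3 : Tendsto (fun n => c n x.1 * y.2) p (𝓝 z.2) := by
      have := (continuous_snd.tendsto z).comp hy
      refine this.congr fun n => ?_
      show ((fun v : D.X × Circle => (D.T v.1, Circle.exp (φ v.1) * v.2))^[n] y).2 = _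
      rw [show y = (y.1, y.2) from rfl, hc, h1]
    have h4 : Tendsto (fun n => (c n x.1 * x.2) * (c n x.1 * y.2)⁻¹) p (𝓝 (z.2 * z.2⁻¹)) :=
      h2.mul h3.inv
    have h5 : (fun n => (c n x.1 * x.2) * (c n x.1 * y.2)⁻¹) = fun _ => x.2 * y.2⁻¹ := by
      funext n
      rw [mul_inv]
      calc c n x.1 * x.2 * ((c n x.1)⁻¹ * y.2⁻¹) =
          (c n x.1 * (c n x.1)⁻¹) * (x.2 * y.2⁻¹) := by
            rw [mul_mul_mul_comm]
        _ = x.2 * y.2⁻¹ := by rw [mul_inv_cancel, one_mul]
    rw [h5, mul_inv_cancel] at h4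
    have h6 : x.2 * y.2⁻¹ = 1 := tendsto_nhds_unique tendsto_const_nhds h4
    have h7 : x.2 = y.2 := mul_inv_eq_one.mp h6
    exact Prod.ext h1 h7
  pt := (D.pt, 1)

theorem DSys.skew_iterate (D : DSys) (φ : D.X → ℝ) (hφ : Continuous φ) (n : ℕ) :
    (D.skew φ hφ).T^[n] (D.skew φ hφ).pt =
      (D.T^[n] D.pt, Circle.exp (∑ i ∈ Finset.range n, φ (D.T^[i] D.pt))) := by
  induction n with
  | zero => simp [DSys.skew]
  | succ n ih =>
    rw [Function.iterate_succ_apply', ih, Function.iterate_succ_apply', Finset.sum_range_succ,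
      add_comm, Circle.exp_add]
    rfl

theorem RD.cos_sum {a : ℕ → ℝ} (h : RD a) :
    RD (fun n => Real.cos (∑ i ∈ Finset.range n, a i)) := by
  obtain ⟨D, F, hF, hFa⟩ := h
  refine ⟨D.skew F hF, fun v => (v.2 : ℂ).re, ?_, ?_⟩
  · exact Complex.continuous_re.comp (continuous_subtype_val.comp continuous_snd)
  · intro n
    rw [DSys.skew_iterate]
    simp only [Circle.coe_exp]
    rw [Complex.exp_ofReal_mul_I_re]
    congr 1
    exact Finset.sum_congr rfl fun i _ => hFa i

theorem RD.sin_sum {a : ℕ → ℝ} (h : RD a) :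
    RD (fun n => Real.sin (∑ i ∈ Finset.range n, a i)) := by
  obtain ⟨D, F, hF, hFa⟩ := h
  refine ⟨D.skew F hF, fun v => (v.2 : ℂ).im, ?_, ?_⟩
  · exact Complex.continuous_im.comp (continuous_subtype_val.comp continuous_snd)
  · intro n
    rw [DSys.skew_iterate]
    simp only [Circle.coe_exp]
    rw [Complex.exp_ofReal_mul_I_im]
    congr 1
    exact Finset.sum_congr rfl fun i _ => hFa i

theorem RD.cos_sum_sub {a : ℕ → ℝ} (h : RD a) (c : ℝ) :
    RD (fun n => Real.cos ((∑ i ∈ Finset.range n, a i) - c)) := by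
  have h1 := (h.cos_sum.const_mul (Real.cos c)).add (h.sin_sum.const_mul (Real.sin c))
  convert h1 using 2 with n
  rw [Real.cos_sub]
  ring

/-- Rotation of a finite cyclic group. -/
def DSys.cyc (P : ℕ) [NeZero P] : DSys where
  X := ZMod P
  top := ⊥
  cpt := by
    let _ : TopologicalSpace (ZMod P) := ⊥
    have : DiscreteTopology (ZMod P) := ⟨rfl⟩
    infer_instance
  t2 := by
    let _ : TopologicalSpace (ZMod P) := ⊥
    have : DiscreteTopology (ZMod P) := ⟨rfl⟩
    infer_instance
  sc := by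
    let _ : TopologicalSpace (ZMod P) := ⊥
    have : DiscreteTopology (ZMod P) := ⟨rfl⟩
    infer_instance
  T := fun x => x + 1
  cont := by
    let _ : TopologicalSpace (ZMod P) := ⊥
    have : DiscreteTopology (ZMod P) := ⟨rfl⟩
    exact continuous_of_discreteTopology
  dist := by
    let _ : TopologicalSpace (ZMod P) := ⊥
    have : DiscreteTopology (ZMod P) := ⟨rfl⟩
    have hit : ∀ (n : ℕ) (x : ZMod P), (fun x : ZMod P => x + 1)^[n] x = x + n := by
      intro n
      induction n with
      | zero => intro x; simp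
      | succ n ih => intro x; rw [Function.iterate_succ_apply', ih]; push_cast; ring
    intro x y z p hx hy
    rw [nhds_discrete, tendsto_pure] at hx hy
    obtain ⟨n, hn1, hn2⟩ := (hx.and hy).exists
    rw [hit] at hn1 hn2
    have : x + n = y + n := hn1.trans hn2.symm
    exact add_right_cancel this
  pt := 0

theorem DSys.cyc_iterate (P : ℕ) [NeZero P] (n : ℕ) :
    (DSys.cyc P).T^[n] (DSys.cyc P).pt = ((n : ℕ) : ZMod P) := by
  induction n with
  | zero => show (0 : ZMod P) = _; simp
  | succ n ih =>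
    rw [Function.iterate_succ_apply', ih]
    show ((n : ℕ) : ZMod P) + 1 = _
    push_cast
    rfl

theorem RD.mod (P : ℕ) [NeZero P] (g : ℕ → ℝ) : RD (fun n => g (n % P)) := by
  refine ⟨DSys.cyc P, fun v => g (ZMod.val (n := P) v), ?_, ?_⟩
  · have : DiscreteTopology (DSys.cyc P).X := ⟨rfl⟩
    exact continuous_of_discreteTopology
  · intro n
    rw [DSys.cyc_iterate]
    show g (n % P) = g (ZMod.val ((n : ℕ) : ZMod P))
    rw [ZMod.val_natCast]

end Pool.Agent.Helper47_Distal
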