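import Mathlib

/-!
# Distal sequences and interpolation sets: definitions
-/

namespace Pool.Agent.Helper47_Distal

/-- A self-map `T` of a metric space is *distal* if for all distinct points `x`, `y`
one has `inf_n d(T^n x, T^n y) > 0` (the infimum over all `n = 0, 1, 2, ...`). -/
def IsDistalMap {X : Type} [MetricSpace X] (T : X → X) : Prop :=
  ∀ x y : X, x ≠ y → 0 < ⨅ n : ℕ, dist (T^[n] x) (T^[n] y)

/-- `ψ : ℕ → ℂ` is a *distal sequence* if `ψ n = F (T^n x)` for some compact metric space `X`,
some continuous distal map `T : X → X`, some point `x` of `X` and some continuous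
function `F : X → ℂ`. -/
def IsDistalSeq (ψ : ℕ → ℂ) : Prop :=
  ∃ (X : Type) (_ : MetricSpace X) (_ : CompactSpace X) (T : X → X) (x : X) (F : X → ℂ),
    Continuous T ∧ IsDistalMap T ∧ Continuous F ∧ ∀ n : ℕ, ψ n = F (T^[n] x)

/-- `E` is an *interpolation set for distal sequences* if every bounded function on `E`
is the restriction of a distal sequence. -/
def IsInterpolationSet (E : Set ℕ) : Prop :=
  ∀ f : E → ℂ, Bornology.IsBounded (Set.range f) →
    ∃ ψ : ℕ → ℂ, IsDistalSeq ψ ∧ ∀ n : E, ψ n = f n

end Pool.Agent.Helper47_Distal
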