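import Pool.Agent.Helper47_Distal.Slow

/-!
# The ideal of good sets
-/

open Filter Topology

namespace Pool.Agent.Helper47_Distal

/-- All bounded neighbourhoods of `Q` have the separation property. -/
def InJ (Q : Set ℕ) : Prop := ∀ K : ℕ, Sep (nbhd Q K)

/-- `Q` can be added to every member of `InJ`. -/
def InK (Q : Set ℕ) : Prop := ∀ R : Set ℕ, InJ R → InJ (Q ∪ R)

theorem InJ.mono {Q Q' : Set ℕ} (h : InJ Q) (hs : Q' ⊆ Q) : InJ Q' :=
  fun K => (h K).mono (nbhd_mono hs le_rfl)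

theorem InJ.nbhd {Q : Set ℕ} (h : InJ Q) (K : ℕ) : InJ (nbhd Q K) :=
  fun K' => (h (K + K')).mono (nbhd_nbhd Q K K')

theorem InJ.sep {Q : Set ℕ} (h : InJ Q) : Sep Q := (h 0).mono (subset_nbhd Q 0)

theorem InJ.empty : InJ ∅ := by
  intro K A
  refine ⟨fun _ => 0, RD.const 0, ?_⟩
  rintro n ⟨m, hm, _⟩
  exact absurd hm (Set.notMem_empty m)

theorem InK.inJ {Q : Set ℕ} (h : InK Q) : InJ Q := by
  simpa using h ∅ InJ.empty

theorem InK.mono {Q Q' : Set ℕ} (h : InK Q) (hs : Q' ⊆ Q) : InK Q' :=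
  fun R hR => (h R hR).mono (Set.union_subset_union_left R hs)

theorem InK.nbhd {Q : Set ℕ} (h : InK Q) (K : ℕ) : InK (nbhd Q K) := by
  intro R hR
  refine ((h R hR).nbhd K).mono ?_
  rw [nbhd_union]
  exact Set.union_subset_union_right _ (subset_nbhd R K)

theorem InK.empty : InK ∅ := by
  intro R hR
  simpa using hR

theorem InK.union {Q Q' : Set ℕ} (h : InK Q) (h' : InK Q') : InK (Q ∪ Q') := by
  intro R hR
  rw [Set.union_assoc]
  exact h _ (h' _ hR)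

/-- Points of `U` which have another point of `U` at distance at most `M`. -/
def bad (U : Set ℕ) (M : ℕ) : Set ℕ := {n | n ∈ U ∧ ∃ w ∈ U, w ≠ n ∧ w ≤ n + M ∧ n ≤ w + M}

theorem bad_inK {U : Set ℕ} (hU : ∀ x : ℕ, 1 ≤ x → InK {n | n ∈ U ∧ n + x ∈ U}) (M : ℕ) :
    InK (bad U M) := by
  have h1 : ∀ M : ℕ, InK {n | n ∈ U ∧ ∃ x, 1 ≤ x ∧ x ≤ M ∧ n + x ∈ U} := by
    intro M
    induction M with
    | zero =>
      refine InK.empty.mono ?_
      rintro n ⟨_, x, h1, h2, _⟩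
      omega
    | succ M ih =>
      refine (ih.union (hU (M + 1) (by omega))).mono ?_
      rintro n ⟨hn, x, h1, h2, h3⟩
      by_cases hx : x = M + 1
      · subst hx; exact Or.inr ⟨hn, h3⟩
      · exact Or.inl ⟨hn, x, h1, by omega, h3⟩
  refine ((h1 M).nbhd M).mono ?_
  rintro n ⟨hn, w, hw, hne, h2, h3⟩
  rcases Nat.lt_or_gt_of_ne hne with h | h
  · exact ⟨w, ⟨hw, n - w, by omega, by omega, by rwa [Nat.add_sub_cancel' h.le]⟩, by omega, by omega⟩
  · exact ⟨n, ⟨hn, w - n, by omega, by omega, by rwa [Nat.add_sub_cancel' h.le]⟩, by omega, by omega⟩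

/-- The main combinatorial step. -/
theorem main_step {U : Set ℕ} (hU : ∀ x : ℕ, 1 ≤ x → InK {n | n ∈ U ∧ n + x ∈ U}) : InK U := by
  classical
  intro R hR K
  obtain ⟨L0, hL0def⟩ : ∃ L0, L0 = 24 * (K + 1) := ⟨_, rfl⟩
  have hL0 : 0 < L0 := by omega
  let U' : Set ℕ := {n | n ∈ U ∧ (∀ w ∈ U, w ≠ n → (n + (L0 + K) < w ∨ w + (L0 + K) < n)) ∧
    ∀ v ∈ R, (n + (L0 + K) < v ∨ v + (L0 + K) < n)}
  let U0 : Set ℕ := {n | n ∈ U ∧ n ∉ U'}
  let Q0 : Set ℕ := nbhd R K ∪ nbhd U0 K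
  have hU0 : U0 ⊆ bad U (L0 + K) ∪ nbhd R (L0 + K) := by
    rintro n ⟨hn, hn'⟩
    by_contra hcon
    simp only [Set.mem_union, not_or] at hcon
    apply hn'
    refine ⟨hn, ?_, ?_⟩
    · intro w hw hne
      by_contra h
      exact hcon.1 ⟨hn, w, hw, hne, by omega, by omega⟩
    · intro v hv
      by_contra h
      exact hcon.2 ⟨v, hv, by omega, by omega⟩
  have hQ0J : InJ Q0 := by
    have h1 := ((bad_inK hU (L0 + K)).nbhd K) (nbhd R (L0 + K + K)) (hR.nbhd _)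
    refine h1.mono ?_
    rintro n (hn | hn)
    · exact Or.inr (nbhd_mono subset_rfl (by omega) hn)
    · have := nbhd_mono hU0 (le_refl K) hn
      rw [nbhd_union] at this
      rcases this with h | h
      · exact Or.inl h
      · exact Or.inr (nbhd_nbhd _ _ _ h)
  -- distance from U' to Q0
  have hdist : ∀ n ∈ U', ∀ q ∈ Q0, (n + L0 < q ∨ q + L0 < n) := by
    rintro n ⟨hn, hn1, hn2⟩ q (⟨v, hv, h1, h2⟩ | ⟨w, ⟨hw, hw'⟩, h1, h2⟩)
    · have := hn2 v hv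
      omega
    · have hne : w ≠ n := by
        rintro rfl
        exact hw' ⟨hn, hn1, hn2⟩
      have := hn1 w hw hne
      omega
  let W : Set ℕ := Q0 ∪ U'
  let Wm : ℕ → Set ℕ := fun m => Q0 ∪ {u | u ∈ U' ∧ ∃ w ∈ W, w ≠ u ∧ w ≤ u + 2 ^ m * L0 ∧ u ≤ w + 2 ^ m * L0}
  have hmono : ∀ m, Wm m ⊆ Wm (m + 1) := by
    rintro m u (hu | ⟨hu, w, hw, hne, h1, h2⟩)
    · exact Or.inl hu
    · have hp : 2 ^ m * L0 ≤ 2 ^ (m + 1) * L0 :=
        Nat.mul_le_mul_right _ (Nat.pow_le_pow_right (by norm_num) (by omega))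
      exact Or.inr ⟨hu, w, hw, hne, by omega, by omega⟩
  have hW : ∀ u ∈ W, ∀ u' ∈ W, u < u' → ∃ m, u ∈ Wm m ∧ u' ∈ Wm m := by
    intro u hu u' hu' hlt
    have hp : u' - u ≤ 2 ^ (u' - u) * L0 :=
      (Nat.lt_two_pow_self).le.trans (Nat.le_mul_of_pos_right _ hL0)
    refine ⟨u' - u, ?_, ?_⟩
    · rcases hu with h | h
      · exact Or.inl h
      · exact Or.inr ⟨h, u', hu', by omega, by omega, by omega⟩
    · rcases hu' with h | h
      · exact Or.inl h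
      · exact Or.inr ⟨h, u, hu, by omega, by omega, by omega⟩
  have hiso : ∀ m, ∀ u ∈ W, u ∉ Wm m → ∀ w ∈ W, w ≠ u →
      (u + 2 ^ m * L0 < w ∨ w + 2 ^ m * L0 < u) := by
    intro m u hu hum w hw hne
    by_contra hcon
    apply hum
    rcases hu with h | h
    · exact Or.inl h
    · exact Or.inr ⟨h, w, hw, hne, by omega, by omega⟩
  have hWm0 : ∀ u ∈ Wm 0, u ∈ Q0 := by
    rintro u (hu | ⟨hu, w, hw, hne, h1, h2⟩)
    · exact hu
    · exfalso
      simp only [pow_zero, one_mul] at h1 h2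
      rcases hw with hw | hw
      · have := hdist u hu w hw
        omega
      · have := hu.2.1 w hw.1 hne
        omega
  have hWmJ : ∀ m, InJ (Wm m) := by
    intro m
    have h1 := (bad_inK hU (2 ^ m * L0)) (nbhd Q0 (2 ^ m * L0)) (hQ0J.nbhd _)
    refine h1.mono ?_
    rintro u (hu | ⟨hu, w, hw, hne, h1, h2⟩)
    · exact Or.inr (subset_nbhd _ _ hu)
    · rcases hw with hw | hw
      · exact Or.inr ⟨w, hw, by omega, by omega⟩
      · exact Or.inl ⟨hu.1, w, hw.1, hne, by omega, by omega⟩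
  have hdisj : ∀ u ∈ Q0, u ∉ U' := by
    intro u hu hu'
    have := hdist u hu' u hu
    omega
  have hslow : ∀ A : Set ℕ, A ⊆ U' → ∃ ψ : ℕ → ℝ, RD ψ ∧ (∀ n, 0 ≤ ψ n ∧ ψ n ≤ 1) ∧
      (∀ u ∈ W, (u ∈ A → ψ u = 1) ∧ (u ∉ A → ψ u = 0)) ∧
      ∀ (n u K : ℕ), n ≤ u + K → u ≤ n + K → |ψ n - ψ u| ≤ 4 * K / L0 := by
    intro A hA
    exact slow_sep hL0 hmono hW hiso (fun m => hWmJ m _) A
      (fun u hu huA => hdisj u (hWm0 u hu) (hA huA))
  -- now separate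
  intro A
  obtain ⟨χ, hχ1, hχ2, hχ3, hχ4⟩ := hslow U' subset_rfl
  obtain ⟨ψQ, hQ1, hQ2, hQ3⟩ := hQ0J.sep.exact A
  obtain ⟨P, hP⟩ : ∃ P, P = 2 * K + 1 := ⟨_, rfl⟩
  have : NeZero P := ⟨by omega⟩
  choose ψ h1 h2 h3 h4 using fun ρ : ℕ =>
    hslow {u | u ∈ U' ∧ ∃ n ∈ A, n % P = ρ ∧ n ≤ u + K ∧ u ≤ n + K} (fun u hu => hu.1)
  let Ψ : ℕ → ℝ := fun n => (1 - χ n) * ψQ n +
    ∑ ρ ∈ Finset.range P, (if n % P = ρ then (1 : ℝ) else 0) * ψ ρ n
  have hΨ : RD Ψ := by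
    refine RD.add (RD.mul (RD.sub (RD.const 1) hχ1) hQ1) (RD.sum _ fun ρ _ => RD.mul ?_ (h1 ρ))
    exact RD.mod P (fun k => if k = ρ then (1 : ℝ) else 0)
  have hΨn : ∀ n, Ψ n = (1 - χ n) * ψQ n + ψ (n % P) n := by
    intro n
    simp only [Ψ]
    congr 1
    rw [Finset.sum_eq_single (n % P)]
    · simp
    · intro ρ _ hρ
      rw [if_neg (Ne.symm hρ), zero_mul]
    · intro hn
      exact absurd (Finset.mem_range.mpr (Nat.mod_lt n (by omega))) hn
  refine ⟨Ψ, hΨ, ?_⟩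
  intro n hn
  have hcase : n ∈ Q0 ∨ ∃ u ∈ U', n ≤ u + K ∧ u ≤ n + K := by
    obtain ⟨m, hm | hm, hm1, hm2⟩ := hn
    · by_cases hmU : m ∈ U'
      · exact Or.inr ⟨m, hmU, hm1, hm2⟩
      · exact Or.inl (Or.inr ⟨m, ⟨hm, hmU⟩, hm1, hm2⟩)
    · exact Or.inl (Or.inl ⟨m, hm, hm1, hm2⟩)
  rcases hcase with hq | ⟨u, hu, hu1, hu2⟩
  · have e1 : χ n = 0 := (hχ3 n (Or.inl hq)).2 (hdisj n hq)
    have e2 : ψ (n % P) n = 0 := (h3 (n % P) n (Or.inl hq)).2 (fun h => hdisj n hq h.1)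
    rw [hΨn, e1, e2]
    constructor
    · intro hA
      rw [(hQ3 n hq).1 hA]
      norm_num
    · intro hA
      rw [(hQ3 n hq).2 hA]
      norm_num
  · have hKL : 4 * (K : ℝ) / L0 ≤ 1 / 6 := by
      rw [hL0def]
      push_cast
      rw [div_le_div_iff₀ (by positivity) (by norm_num)]
      nlinarith [Nat.cast_nonneg (α := ℝ) K]
    have e1 : χ u = 1 := (hχ3 u (Or.inr hu)).1 hu
    have e2 := hχ4 n u K hu1 hu2
    rw [e1, abs_le] at e2
    have e3 := hQ2 n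
    have e4 := hχ2 n
    have e5 := h4 (n % P) n u K hu1 hu2
    rw [abs_le] at e5
    have e6 : 0 ≤ (1 - χ n) * ψQ n := mul_nonneg (by linarith) e3.1
    have e7 : (1 - χ n) * ψQ n ≤ 1 / 6 := by
      calc (1 - χ n) * ψQ n ≤ (1 - χ n) * 1 := by
            apply mul_le_mul_of_nonneg_left e3.2 (by linarith)
        _ ≤ 1 / 6 := by linarith
    rw [hΨn]
    constructor
    · intro hA
      have : ψ (n % P) u = 1 := (h3 (n % P) u (Or.inr hu)).1 ⟨hu, n, hA, rfl, hu1, hu2⟩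
      rw [this] at e5
      linarith
    · intro hA
      have : ψ (n % P) u = 0 := by
        refine (h3 (n % P) u (Or.inr hu)).2 ?_
        rintro ⟨-, n', hn', hmod, hn1, hn2⟩
        have : n' = n := by
          have hmod' : n' ≡ n [MOD P] := hmod
          rcases le_total n n' with h | h
          · have := (Nat.modEq_iff_dvd' h).mp hmod'.symm
            have h5 : n' - n = 0 := Nat.eq_zero_of_dvd_of_lt this (by omega)
            omega
          · have := (Nat.modEq_iff_dvd' h).mp hmod'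
            have h5 : n - n' = 0 := Nat.eq_zero_of_dvd_of_lt this (by omega)
            omega
        exact hA (this ▸ hn')
      rw [this] at e5
      linarith

/-- The iterated sets `E ∩ (E - x 0) ∩ ...`. -/
def cube (E : Set ℕ) (x : ℕ → ℕ) : ℕ → Set ℕ
  | 0 => E
  | k + 1 => {n | n ∈ cube E x k ∧ n + x k ∈ cube E x k}

theorem exists_cubes {E : Set ℕ} (hE : ¬ InK E) :
    ∃ x : ℕ → ℕ, (∀ k, 1 ≤ x k) ∧ ∀ k, (cube E x k).Nonempty := by
  classical
  obtain ⟨f, hf0, hfP, hfR⟩ := exists_seq_dep (P := fun _ U => ¬ InK U)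
    (R := fun _ U U' => ∃ x : ℕ, 1 ≤ x ∧ U' = {n | n ∈ U ∧ n + x ∈ U}) E hE (by
      intro m U hU
      have : ¬ ∀ x : ℕ, 1 ≤ x → InK {n | n ∈ U ∧ n + x ∈ U} := fun h => hU (main_step h)
      push Not at this
      obtain ⟨x, hx, hx'⟩ := this
      exact ⟨_, hx', x, hx, rfl⟩)
  choose x hx hx' using hfR
  refine ⟨x, hx, ?_⟩
  have hcube : ∀ k, cube E x k = f k := by
    intro k
    induction k with
    | zero => exact hf0.symm
    | succ k ih =>
      rw [hx' k]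
      simp only [cube, ih]
  intro k
  rw [hcube k]
  by_contra hcon
  rw [Set.not_nonempty_iff_eq_empty] at hcon
  exact hfP k (hcon ▸ InK.empty)

end Pool.Agent.Helper47_Distal
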