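import Pool.Agent.Helper47_Distal.Basic

/-!
# Separation implies interpolation
-/

open Filter Topology

namespace Pool.Agent.Helper47_Distal

/-- Every subset of `Q` is separated from its complement in `Q` by a distal sequence. -/
def Sep (Q : Set ℕ) : Prop :=
  ∀ A : Set ℕ, ∃ ψ : ℕ → ℝ, RD ψ ∧ ∀ n ∈ Q, (n ∈ A → 2 / 3 ≤ ψ n) ∧ (n ∉ A → ψ n ≤ 1 / 3)

theorem Sep.mono {Q Q' : Set ℕ} (h : Sep Q) (hs : Q' ⊆ Q) : Sep Q' := by
  intro A
  obtain ⟨ψ, h1, h2⟩ := h A
  exact ⟨ψ, h1, fun n hn => h2 n (hs hn)⟩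

/-- Exact separation with values `±1`. -/
theorem Sep.sign {Q : Set ℕ} (h : Sep Q) (A : Set ℕ) :
    ∃ ψ : ℕ → ℝ, RD ψ ∧ (∀ n, |ψ n| ≤ 1) ∧ ∀ n ∈ Q, (n ∈ A → ψ n = 1) ∧ (n ∉ A → ψ n = -1) := by
  obtain ⟨ψ, h1, h2⟩ := h A
  refine ⟨fun n => clamp 1 (6 * ψ n - 3), ?_, fun n => clamp_abs zero_le_one _, ?_⟩
  · exact h1.comp1 (g := fun x => clamp 1 (6 * x - 3)) ((clamp_cont 1).comp (by fun_prop))
  · intro n hn
    obtain ⟨h3, h4⟩ := h2 n hn
    constructor
    · intro hA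
      have := h3 hA
      show clamp 1 (6 * ψ n - 3) = 1
      unfold clamp
      rw [min_eq_left (by linarith), max_eq_right (by norm_num)]
    · intro hA
      have := h4 hA
      show clamp 1 (6 * ψ n - 3) = -1
      unfold clamp
      rw [max_eq_left]
      exact (min_le_right _ _).trans (by linarith)

/-- Exact separation with values `0, 1`. -/
theorem Sep.exact {Q : Set ℕ} (h : Sep Q) (A : Set ℕ) :
    ∃ ψ : ℕ → ℝ, RD ψ ∧ (∀ n, 0 ≤ ψ n ∧ ψ n ≤ 1) ∧
      ∀ n ∈ Q, (n ∈ A → ψ n = 1) ∧ (n ∉ A → ψ n = 0) := by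
  obtain ⟨ψ, h1, h2, h3⟩ := h.sign A
  refine ⟨fun n => (ψ n + 1) / 2, h1.comp1 (g := fun x => (x + 1) / 2) (by fun_prop), ?_, ?_⟩
  · intro n
    have := abs_le.mp (h2 n)
    constructor <;> linarith [this.1, this.2]
  · intro n hn
    obtain ⟨h4, h5⟩ := h3 n hn
    exact ⟨fun hA => by simp only [h4 hA]; norm_num, fun hA => by simp only [h5 hA]; norm_num⟩

/-- Digits `±1`. -/
noncomputable def sg (x : ℝ) : ℝ := if 0 ≤ x then 1 else -1

theorem abs_sg (x : ℝ) : |sg x| = 1 := by unfold sg; split_ifs <;> simp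

/-- Remainders in the digit expansion. -/
noncomputable def rem (x : ℝ) : ℕ → ℝ
  | 0 => x
  | j + 1 => 2 * rem x j - sg (rem x j)

theorem abs_rem {x : ℝ} (hx : |x| ≤ 1) (j : ℕ) : |rem x j| ≤ 1 := by
  induction j with
  | zero => exact hx
  | succ j ih =>
    rw [abs_le] at ih ⊢
    simp only [rem, sg]
    split_ifs with h
    · constructor <;> linarith [ih.1, ih.2]
    · constructor <;> linarith [ih.1, ih.2, not_le.mp h]

theorem sum_rem (x : ℝ) (k : ℕ) :
    ∑ j ∈ Finset.range k, sg (rem x j) / 2 ^ (j + 1) = x - rem x k / 2 ^ k := by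
  induction k with
  | zero => simp [rem]
  | succ k ih =>
    rw [Finset.sum_range_succ, ih]
    simp only [rem]
    field_simp
    ring

theorem hasSum_rem {x : ℝ} (hx : |x| ≤ 1) :
    HasSum (fun j => sg (rem x j) / 2 ^ (j + 1)) x := by
  have hs : Summable (fun j : ℕ => sg (rem x j) / 2 ^ (j + 1)) := by
    refine Summable.of_norm_bounded (g := fun j : ℕ => (1 / 2 : ℝ) ^ (j + 1)) ?_ ?_
    · exact (summable_nat_add_iff 1).mpr summable_geometric_two
    · intro j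
      rw [Real.norm_eq_abs, abs_div, abs_sg, abs_of_pos (by positivity)]
      simp
  rw [hs.hasSum_iff_tendsto_nat]
  simp only [sum_rem]
  have h0 : Tendsto (fun k : ℕ => rem x k / 2 ^ k) atTop (𝓝 0) := by
    refine squeeze_zero_norm (a := fun k : ℕ => (1 / 2 : ℝ) ^ k) ?_
      (tendsto_pow_atTop_nhds_zero_of_lt_one (by norm_num) (by norm_num))
    intro k
    rw [Real.norm_eq_abs, abs_div, abs_of_pos (show (0 : ℝ) < 2 ^ k by positivity)]
    have := abs_rem hx k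
    rw [one_div, inv_pow, ← one_div]
    gcongr
  simpa using tendsto_const_nhds.sub h0

/-- Bounded interpolation on a set with the separation property. -/
theorem Sep.interp {Q : Set ℕ} (h : Sep Q) {f : ℕ → ℝ} {c : ℝ} (hc : 0 ≤ c)
    (hf : ∀ n ∈ Q, |f n| ≤ c) :
    ∃ ψ : ℕ → ℝ, RD ψ ∧ (∀ n, |ψ n| ≤ c) ∧ ∀ n ∈ Q, ψ n = f n := by
  rcases hc.eq_or_lt with hc0 | hc0
  · subst hc0
    refine ⟨fun _ => 0, RD.const 0, fun n => by simp, fun n hn => ?_⟩
    exact (abs_nonpos_iff.mp (hf n hn)).symm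
  have hs := fun j : ℕ => h.sign {n | 0 ≤ rem (f n / c) j}
  choose σ h1 h2 h3 using hs
  have hb : ∀ j n, |c * (σ j n / 2 ^ (j + 1))| ≤ c * (1 / 2 : ℝ) ^ (j + 1) := by
    intro j n
    rw [abs_mul, abs_of_pos hc0, abs_div, abs_of_pos (show (0 : ℝ) < 2 ^ (j + 1) by positivity)]
    have := h2 j n
    rw [one_div, inv_pow, ← one_div]
    gcongr
  have hsum : Summable (fun j : ℕ => c * (1 / 2 : ℝ) ^ (j + 1)) :=
    ((summable_nat_add_iff 1).mpr summable_geometric_two).mul_left c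
  have htot : ∑' j : ℕ, c * (1 / 2 : ℝ) ^ (j + 1) = c := by
    rw [tsum_mul_left]
    have : ∑' j : ℕ, (1 / 2 : ℝ) ^ (j + 1) = 1 := by
      simp_rw [pow_succ]
      rw [tsum_mul_right, tsum_geometric_two]
      norm_num
    rw [this, mul_one]
  refine ⟨fun n => ∑' j, c * (σ j n / 2 ^ (j + 1)), ?_, ?_, ?_⟩
  · refine RD.tsum (fun j => ?_) hsum hb
    exact (h1 j).comp1 (g := fun x => c * (x / 2 ^ (j + 1))) (by fun_prop)
  · intro n
    have hsn : Summable fun j => c * (σ j n / 2 ^ (j + 1)) :=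
      Summable.of_norm_bounded hsum (fun j => hb j n)
    calc |∑' j, c * (σ j n / 2 ^ (j + 1))| ≤ ∑' j, |c * (σ j n / 2 ^ (j + 1))| := by
          have := norm_tsum_le_tsum_norm hsn.norm
          simpa only [Real.norm_eq_abs] using this
      _ ≤ ∑' j : ℕ, c * (1 / 2 : ℝ) ^ (j + 1) :=
          hsn.abs.tsum_le_tsum (fun j => hb j n) hsum
      _ = c := htot
  · intro n hn
    have hfc : |f n / c| ≤ 1 := by
      rw [abs_div, abs_of_pos hc0, div_le_one hc0]
      exact hf n hn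
    have hσ : ∀ j, σ j n = sg (rem (f n / c) j) := by
      intro j
      unfold sg
      split_ifs with h0
      · exact (h3 j n hn).1 h0
      · exact (h3 j n hn).2 h0
    have h4 := (hasSum_rem hfc).mul_left c
    have h5 : (fun j => c * (σ j n / 2 ^ (j + 1))) =
        fun j => c * (sg (rem (f n / c) j) / 2 ^ (j + 1)) := by
      funext j; rw [hσ]
    show ∑' j, c * (σ j n / 2 ^ (j + 1)) = f n
    rw [h5, h4.tsum_eq]
    field_simp

end Pool.Agent.Helper47_Distal
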