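import Pool.Agent.Helper47_Distal.Ideal

/-!
# Necessity and the main theorem
-/

open Filter Topology

namespace Pool.Agent.Helper47_Distal

attribute [local instance] Ultrafilter.add Ultrafilter.addSemigroup

theorem ip_rec {X : Type} [TopologicalSpace X] [CompactSpace X] [T2Space X] {T : X → X}
    (hT : Continuous T) (hd : Distal' T) (y : X) (p : Ultrafilter ℕ) (hp : p + p = p) :
    Tendsto (fun n : ℕ => T^[n] y) p (𝓝 y) := by
  obtain ⟨y', -, hy'⟩ := isCompact_univ.ultrafilter_le_nhds (p.map fun n : ℕ => T^[n] y)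
    (by simp)
  have h1 : Tendsto (fun n : ℕ => T^[n] y) p (𝓝 y') := hy'
  have h2 : Tendsto (fun n : ℕ => T^[n] y') p (𝓝 y') := by
    rw [(closed_nhds_basis y').tendsto_right_iff]
    rintro V ⟨hV, hVc⟩
    have h3 : ∀ᶠ n in (p : Filter ℕ), T^[n] y ∈ V := h1 hV
    have h4 : ∀ᶠ m in (p : Filter ℕ), ∀ᶠ n in (p : Filter ℕ), T^[m + n] y ∈ V := by
      rw [← hp] at h3
      exact (Ultrafilter.eventually_add p p _).mp h3
    filter_upwards [h4] with m hm
    have h5 : Tendsto (fun n : ℕ => T^[m] (T^[n] y)) p (𝓝 (T^[m] y')) :=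
      ((hT.iterate m).tendsto y').comp h1
    refine hVc.mem_of_tendsto h5 ?_
    filter_upwards [hm] with n hn
    rwa [Function.iterate_add_apply] at hn
  have h3 := hd y y' y' p h1 h2
  rw [← h3] at h1
  exact h1

theorem cube_large {E : Set ℕ} {x : ℕ → ℕ} (hx : ∀ k, 1 ≤ x k) (hc : ∀ k, (cube E x k).Nonempty)
    (k B : ℕ) : ∃ n, B ≤ n ∧ n ∈ cube E x k := by
  have key : ∀ j n, n ∈ cube E x (k + j) → ∃ n', j ≤ n' ∧ n' ∈ cube E x k := by
    intro j
    have : ∀ n, n ∈ cube E x (k + j) → ∃ n', n + j ≤ n' ∧ n' ∈ cube E x k := by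
      induction j with
      | zero => intro n hn; exact ⟨n, le_rfl, hn⟩
      | succ j ih =>
        intro n hn
        obtain ⟨n', h1, h2⟩ := ih (n + x (k + j)) hn.2
        exact ⟨n', by have := hx (k + j); omega, h2⟩
    intro n hn
    obtain ⟨n', h1, h2⟩ := this n hn
    exact ⟨n', by omega, h2⟩
  obtain ⟨n, hn⟩ := hc (k + B)
  exact key B n hn

theorem cube_sub (E : Set ℕ) (x : ℕ → ℕ) (k : ℕ) : cube E x k ⊆ E := by
  induction k with
  | zero => exact subset_rfl
  | succ k ih => exact fun n hn => ih hn.1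

theorem cube_anti (E : Set ℕ) (x : ℕ → ℕ) {k k' : ℕ} (h : k ≤ k') : cube E x k' ⊆ cube E x k := by
  induction h with
  | refl => exact subset_rfl
  | step _ ih => exact fun n hn => ih hn.1

theorem FS_pos {a : Stream' ℕ} {m : ℕ} (hm : m ∈ Hindman.FS a) (ha : ∀ i, 1 ≤ a.get i) :
    1 ≤ m := by
  induction hm with
  | head' a => exact ha 0
  | tail' a m _ ih => exact ih fun i => ha (i + 1)
  | cons' a m _ ih =>
    have := ih fun i => ha (i + 1)
    omega

theorem FS_cube {E : Set ℕ} {x : ℕ → ℕ} {a : Stream' ℕ} {m : ℕ} (hm : m ∈ Hindman.FS a) :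
    ∀ j, (∀ i, a.get i = x (j + i)) → ∃ K, ∀ n ∈ cube E x K, n + m ∈ cube E x j := by
  induction hm with
  | head' a =>
    intro j hj
    refine ⟨j + 1, fun n hn => ?_⟩
    have : a.head = x j := by simpa using hj 0
    rw [this]
    exact hn.2
  | tail' a m _ ih =>
    intro j hj
    obtain ⟨K, hK⟩ := ih (j + 1) (fun i => by
      have := hj (i + 1)
      rw [show j + 1 + i = j + (i + 1) by ring]
      exact this)
    exact ⟨K, fun n hn => cube_anti E x (Nat.le_succ j) (hK n hn)⟩
  | cons' a m _ ih =>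
    intro j hj
    obtain ⟨K, hK⟩ := ih (j + 1) (fun i => by
      have := hj (i + 1)
      rw [show j + 1 + i = j + (i + 1) by ring]
      exact this)
    refine ⟨K, fun n hn => ?_⟩
    have h1 := (hK n hn).2
    have : a.head = x j := by simpa using hj 0
    rw [this, show n + (x j + m) = n + m + x j by ring]
    exact h1

theorem not_cubes_of_interp {E : Set ℕ} (hE : IsInterpolationSet E) (x : ℕ → ℕ)
    (hx : ∀ k, 1 ≤ x k) (hc : ∀ k, (cube E x k).Nonempty) : False := by
  classical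
  obtain ⟨u, hu0, huP, huR⟩ := exists_seq_dep (P := fun k n => n ∈ cube E x k)
    (R := fun k n n' => n + k < n') (hc 0).some (hc 0).some_mem (by
      intro k n _
      obtain ⟨n', h1, h2⟩ := cube_large hx hc (k + 1) (n + k + 1)
      exact ⟨n', h2, by omega⟩)
  have hmono : ∀ j k, j ≤ k → u j ≤ u k := by
    intro j k h
    induction h with
    | refl => exact le_rfl
    | @step m _ ih => exact ih.trans (by have := huR m; exact (by omega : u m ≤ u (m + 1)))
  obtain ⟨ψ, ⟨X, _, _, T, x0, F, hT, hd, hF, hψ⟩, hψE⟩ := hE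
    (fun n => if ∃ k, (n : ℕ) = u k then 1 else 0) (by
      refine (Metric.isBounded_closedBall (x := (0 : ℂ)) (r := 1)).subset ?_
      rintro _ ⟨n, rfl⟩
      simp only [mem_closedBall_zero_iff]
      split_ifs <;> simp)
  have hd' := hd.distal'
  obtain ⟨r, hr⟩ := Ultrafilter.exists_le (atTop : Filter ℕ)
  obtain ⟨y, -, hy⟩ := isCompact_univ.ultrafilter_le_nhds (r.map fun k : ℕ => T^[u k] x0) (by simp)
  have hy1 : Tendsto (fun k : ℕ => T^[u k] x0) r (𝓝 y) := hy
  have hFy : F y = 1 := by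
    have h1 : Tendsto (fun k : ℕ => F (T^[u k] x0)) r (𝓝 (F y)) := (hF.tendsto y).comp hy1
    have h2 : (fun k : ℕ => F (T^[u k] x0)) = fun _ => 1 := by
      funext k
      rw [← hψ]
      have := hψE ⟨u k, cube_sub E x k (huP k)⟩
      simp only at this
      rw [this, if_pos ⟨k, rfl⟩]
    rw [h2] at h1
    exact tendsto_nhds_unique h1 tendsto_const_nhds |>.symm ▸ rfl
  have hFS : ∀ m ∈ Hindman.FS (x : Stream' ℕ), F (T^[m] y) = 0 := by
    intro m hm
    have hm1 : 1 ≤ m := FS_pos hm hx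
    obtain ⟨K, hK⟩ := FS_cube (E := E) (x := x) hm 0 (fun i => by rw [zero_add]; rfl)
    have h1 : Tendsto (fun k : ℕ => F (T^[m] (T^[u k] x0))) r (𝓝 (F (T^[m] y))) :=
      (hF.tendsto _).comp (((hT.iterate m).tendsto y).comp hy1)
    have h2 : (fun k : ℕ => F (T^[m] (T^[u k] x0))) =ᶠ[(r : Filter ℕ)] fun _ => 0 := by
      have h3 : ∀ᶠ k in (r : Filter ℕ), K ≤ k ∧ m ≤ k :=
        hr ((eventually_ge_atTop K).and (eventually_ge_atTop m))
      filter_upwards [h3] with k hk
      rw [← Function.iterate_add_apply, add_comm, ← hψ]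
      have hmem : u k + m ∈ E := hK (u k) (cube_anti E x hk.1 (huP k))
      have := hψE ⟨u k + m, hmem⟩
      simp only at this
      rw [this, if_neg]
      rintro ⟨j, hj⟩
      rcases le_or_gt j k with h | h
      · have := hmono j k h
        omega
      · have := hmono (k + 1) j h
        have := huR k
        omega
    exact tendsto_nhds_unique (h1.congr' h2) tendsto_const_nhds
  obtain ⟨p, hp, hpFS⟩ := Hindman.exists_idempotent_ultrafilter_le_FS (x : Stream' ℕ)
  have h1 := ip_rec hT hd' y p hp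
  have h2 : Tendsto (fun n : ℕ => F (T^[n] y)) p (𝓝 (F y)) := (hF.tendsto y).comp h1
  have h3 : (fun n : ℕ => F (T^[n] y)) =ᶠ[(p : Filter ℕ)] fun _ => 0 := by
    filter_upwards [hpFS] with m hm
    exact hFS m hm
  have h4 : F y = 0 := tendsto_nhds_unique (h2.congr' h3) tendsto_const_nhds
  rw [hFy] at h4
  exact one_ne_zero h4

theorem inK_of_interp {E : Set ℕ} (hE : IsInterpolationSet E) : InK E := by
  by_contra h
  obtain ⟨x, hx, hc⟩ := exists_cubes h
  exact not_cubes_of_interp hE x hx hc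

theorem cube_tail {E G : Set ℕ} {x : ℕ → ℕ} {B : ℕ} (hG : ∀ g ∈ G, B < g → g ∈ E) :
    ∀ k n, B < n → n ∈ cube G x k → n ∈ cube E x k := by
  intro k
  induction k with
  | zero => intro n hn h; exact hG n h hn
  | succ k ih =>
    intro n hn h
    exact ⟨ih n hn h.1, ih _ (by omega) h.2⟩

theorem inK_union_finite {E F : Set ℕ} (hE : IsInterpolationSet E) (hF : F.Finite) :
    InK (E ∪ F) := by
  by_contra h
  obtain ⟨x, hx, hc⟩ := exists_cubes h
  obtain ⟨B, hB⟩ := hF.bddAbove
  refine not_cubes_of_interp hE x hx fun k => ?_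
  obtain ⟨n, hn1, hn2⟩ := cube_large hx hc k (B + 1)
  refine ⟨n, cube_tail (B := B) ?_ k n (by omega) hn2⟩
  rintro g (hg | hg) hBg
  · exact hg
  · exact absurd (hB hg) (not_le.mpr hBg)

/-- Two real distal sequences give a complex one. -/
theorem RD.isDistalSeq {a b : ℕ → ℝ} (ha : RD a) (hb : RD b) :
    IsDistalSeq (fun n => (a n : ℂ) + (b n : ℂ) * Complex.I) := by
  have h : ∀ j : ℕ, RD (if j = 0 then a else b) := fun j => by
    by_cases hj : j = 0 <;> simp [hj, ha, hb]
  choose D F hF hFa using h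
  let X := (DSys.pi D).X
  let _ : MetricSpace X := TopologicalSpace.metrizableSpaceMetric X
  refine ⟨X, inferInstance, (DSys.pi D).cpt, (DSys.pi D).T, (DSys.pi D).pt,
    fun v => (F 0 (v 0) : ℂ) + (F 1 (v 1) : ℂ) * Complex.I, (DSys.pi D).cont, ?_, ?_, ?_⟩
  · have : CompactSpace X := (DSys.pi D).cpt
    exact (DSys.pi D).dist.isDistalMap
  · have h0 : Continuous (fun v : X => (F 0 (v 0) : ℂ)) :=
      Complex.continuous_ofReal.comp ((hF 0).comp (continuous_apply 0))
    have h1 : Continuous (fun v : X => (F 1 (v 1) : ℂ)) :=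
      Complex.continuous_ofReal.comp ((hF 1).comp (continuous_apply 1))
    exact h0.add (h1.mul continuous_const)
  · intro n
    have h0 := hFa 0 n
    have h1 := hFa 1 n
    simp only [if_true] at h0
    simp only [one_ne_zero, if_false] at h1
    show (a n : ℂ) + (b n : ℂ) * Complex.I = (F 0 (((DSys.pi D).T^[n] (DSys.pi D).pt) 0) : ℂ) +
      (F 1 (((DSys.pi D).T^[n] (DSys.pi D).pt) 1) : ℂ) * Complex.I
    rw [DSys.pi_iterate, DSys.pi_iterate, h0, h1]

theorem Sep.isInterpolationSet {E : Set ℕ} (h : Sep E) : IsInterpolationSet E := by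
  classical
  intro f hf
  obtain ⟨C, hC⟩ := hf.exists_norm_le
  have hC' : ∀ n : E, ‖f n‖ ≤ C := fun n => hC _ ⟨n, rfl⟩
  let g : ℕ → ℂ := fun n => if hn : n ∈ E then f ⟨n, hn⟩ else 0
  have hg : ∀ n ∈ E, ‖g n‖ ≤ max C 0 := by
    intro n hn
    simp only [g, dif_pos hn]
    exact (hC' _).trans (le_max_left _ _)
  obtain ⟨a, ha1, _, ha2⟩ := h.interp (f := fun n => (g n).re) (le_max_right C 0)
    (fun n hn => (Complex.abs_re_le_norm _).trans (hg n hn))
  obtain ⟨b, hb1, _, hb2⟩ := h.interp (f := fun n => (g n).im) (le_max_right C 0)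
    (fun n hn => (Complex.abs_im_le_norm _).trans (hg n hn))
  refine ⟨_, ha1.isDistalSeq hb1, ?_⟩
  intro n
  rw [ha2 n n.2, hb2 n n.2, Complex.re_add_im]
  simp only [g, dif_pos n.2]

/-- Adding a finite set to an interpolation set for distal sequences. -/
theorem main {E F : Set ℕ} (hE : IsInterpolationSet E) (hF : F.Finite) :
    IsInterpolationSet (E ∪ F) :=
  (inK_union_finite hE hF).inJ.sep.isInterpolationSet

end Pool.Agent.Helper47_Distal
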