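import Pool.Agent.Helper47_Distal.Interp

/-!
# Slowly varying distal sequences with prescribed values
-/

open Filter Topology

namespace Pool.Agent.Helper47_Distal

/-- Dependent choice along `ℕ`. -/
theorem exists_seq_dep {α : Type*} (P : ℕ → α → Prop) (R : ℕ → α → α → Prop) (a0 : α)
    (h0 : P 0 a0) (hs : ∀ m a, P m a → ∃ a', P (m + 1) a' ∧ R m a a') :
    ∃ f : ℕ → α, f 0 = a0 ∧ (∀ m, P m (f m)) ∧ ∀ m, R m (f m) (f (m + 1)) := by
  classical
  choose g hg1 hg2 using hs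
  let F : ∀ m : ℕ, {a : α // P m a} := fun m =>
    Nat.rec ⟨a0, h0⟩ (fun m a => ⟨g m a.1 a.2, hg1 m a.1 a.2⟩) m
  refine ⟨fun m => (F m).1, rfl, fun m => (F m).2, fun m => ?_⟩
  exact hg2 m (F m).1 (F m).2

/-- The `K`-neighbourhood of a set of natural numbers. -/
def nbhd (Q : Set ℕ) (K : ℕ) : Set ℕ := {n | ∃ m ∈ Q, n ≤ m + K ∧ m ≤ n + K}

theorem subset_nbhd (Q : Set ℕ) (K : ℕ) : Q ⊆ nbhd Q K :=
  fun n hn => ⟨n, hn, by omega, by omega⟩

theorem nbhd_mono {Q Q' : Set ℕ} (h : Q ⊆ Q') {K K' : ℕ} (hK : K ≤ K') : nbhd Q K ⊆ nbhd Q' K' := by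
  rintro n ⟨m, hm, h1, h2⟩
  exact ⟨m, h hm, by omega, by omega⟩

theorem nbhd_nbhd (Q : Set ℕ) (K K' : ℕ) : nbhd (nbhd Q K) K' ⊆ nbhd Q (K + K') := by
  rintro n ⟨m, ⟨l, hl, h3, h4⟩, h1, h2⟩
  exact ⟨l, hl, by omega, by omega⟩

theorem nbhd_union (Q Q' : Set ℕ) (K : ℕ) : nbhd (Q ∪ Q') K = nbhd Q K ∪ nbhd Q' K := by
  ext n
  constructor
  · rintro ⟨m, hm | hm, h1, h2⟩
    · exact Or.inl ⟨m, hm, h1, h2⟩
    · exact Or.inr ⟨m, hm, h1, h2⟩
  · rintro (⟨m, hm, h1, h2⟩ | ⟨m, hm, h1, h2⟩)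
    · exact ⟨m, Or.inl hm, h1, h2⟩
    · exact ⟨m, Or.inr hm, h1, h2⟩

theorem nbhd_zero (Q : Set ℕ) : nbhd Q 0 = Q := by
  ext n
  constructor
  · rintro ⟨m, hm, h1, h2⟩
    have : n = m := by omega
    rwa [this]
  · exact fun h => subset_nbhd Q 0 h

/-- `u < u'` are consecutive elements of `W`. -/
def Cons (W : Set ℕ) (u u' : ℕ) : Prop :=
  u ∈ W ∧ u' ∈ W ∧ u < u' ∧ ∀ k, u < k → k < u' → k ∉ W

theorem Cons.unique {W : Set ℕ} {u u' w w' i : ℕ} (h : Cons W u u') (h' : Cons W w w')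
    (h1 : u ≤ i) (h2 : i < u') (h3 : w ≤ i) (h4 : i < w') : u = w ∧ u' = w' := by
  obtain ⟨hu, hu', hlt, hn⟩ := h
  obtain ⟨hw, hw', hlt', hn'⟩ := h'
  have e1 : u = w := by
    rcases lt_trichotomy u w with h | h | h
    · exact absurd hw (hn w h (by omega))
    · exact h
    · exact absurd hu (hn' u h (by omega))
  have e2 : u' = w' := by
    rcases lt_trichotomy u' w' with h | h | h
    · exact absurd hu' (hn' u' (by omega) h)
    · exact h
    · exact absurd hw' (hn w' (by omega) h)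
  exact ⟨e1, e2⟩

/-- Every pair of elements of `W` is joined by a chain of consecutive pairs. -/
theorem Cons.chain {W : Set ℕ} (T : ℕ → ℕ → Prop) (h0 : ∀ u ∈ W, T u u)
    (h1 : ∀ u u', Cons W u u' → T u u') (h2 : ∀ u v w, u ∈ W → v ∈ W → w ∈ W → T u v → T v w → T u w) :
    ∀ u ∈ W, ∀ u' ∈ W, u ≤ u' → T u u' := by
  classical
  have key : ∀ N : ℕ, ∀ u ∈ W, ∀ u' ∈ W, u ≤ u' → u' - u ≤ N → T u u' := by
    intro N
    induction N with
    | zero =>
      intro u hu u' hu' hle hN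
      have : u = u' := by omega
      subst this
      exact h0 u hu
    | succ N ih =>
      intro u hu u' hu' hle hN
      rcases hle.eq_or_lt with h | h
      · subst h; exact h0 u hu
      · have hex : ∃ w, w ∈ W ∧ u < w := ⟨u', hu', h⟩
        set w := Nat.find hex with hw
        obtain ⟨hw1, hw2⟩ := Nat.find_spec hex
        rw [← hw] at hw1 hw2
        have hwu' : w ≤ u' := Nat.find_min' hex ⟨hu', h⟩
        have hc : Cons W u w := by
          refine ⟨hu, hw1, hw2, ?_⟩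
          intro k hk1 hk2 hkW
          exact Nat.find_min hex hk2 ⟨hkW, hk1⟩
        exact h2 u w u' hu hw1 hu' (h1 u w hc) (ih w hw1 u' hu' hwu' (by omega))
  intro u hu u' hu' hle
  exact key (u' - u) u hu u' hu' hle le_rfl

/-- One correction step. -/
theorem step {W : Set ℕ} {V V' : Set ℕ} {L L' : ℕ} (hL : 0 < L)
    (hV : ∀ u ∈ W, u ∉ V → ∀ w ∈ W, w ≠ u → (u + L < w ∨ w + L < u))
    (hsep : Sep (nbhd V' L')) (t : ℕ → ℝ) {b : ℕ → ℝ} (hb : RD b)
    (hinv : ∀ u u', Cons W u u' → u ∈ V → u' ∈ V → u' - u ≤ L →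
      ∃ k : ℤ, ∑ i ∈ Finset.Ico u u', b i = t u' - t u + k) :
    ∃ b' : ℕ → ℝ, (RD b' ∧ ∀ u u', Cons W u u' → u ∈ V' → u' ∈ V' → u' - u ≤ L' →
      ∃ k : ℤ, ∑ i ∈ Finset.Ico u u', b' i = t u' - t u + k) ∧
      (RD (fun n => b' n - b n) ∧ (∀ n, |b' n - b n| ≤ 1 / (2 * L)) ∧
        ∀ u u', Cons W u u' → u ∈ V → u' ∈ V → u' - u ≤ L → u ∈ V' → u' ∈ V' → u' - u ≤ L' →
          ∀ i, u ≤ i → i < u' → b' i = b i) := by
  classical
  let r : ℕ → ℕ → ℝ := fun u u' => t u' - t u - ∑ i ∈ Finset.Ico u u', b i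
  let v : ℕ → ℕ → ℝ := fun u u' => r u u' - round (r u u')
  let s : ℕ → ℝ := fun i =>
    if h : ∃ p : ℕ × ℕ, Cons W p.1 p.2 ∧ p.1 ∈ V' ∧ p.2 ∈ V' ∧ p.2 - p.1 ≤ L' ∧ p.1 ≤ i ∧ i < p.2 then
      v h.choose.1 h.choose.2 / ((h.choose.2 : ℝ) - h.choose.1) else 0
  have hs : ∀ u u', Cons W u u' → u ∈ V' → u' ∈ V' → u' - u ≤ L' → ∀ i, u ≤ i → i < u' →
      s i = v u u' / ((u' : ℝ) - u) := by
    intro u u' hc h1 h2 h3 i h4 h5
    have hex : ∃ p : ℕ × ℕ, Cons W p.1 p.2 ∧ p.1 ∈ V' ∧ p.2 ∈ V' ∧ p.2 - p.1 ≤ L' ∧ p.1 ≤ i ∧ i < p.2 :=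
      ⟨(u, u'), hc, h1, h2, h3, h4, h5⟩
    have hsp := hex.choose_spec
    obtain ⟨e1, e2⟩ := hc.unique hsp.1 h4 h5 hsp.2.2.2.2.1 hsp.2.2.2.2.2
    simp only [s, dif_pos hex]
    rw [← e1, ← e2]
  have hv : ∀ u u', |v u u'| ≤ 1 / 2 := fun u u' => abs_sub_round _
  have hv0 : ∀ u u', Cons W u u' → u ∈ V → u' ∈ V → u' - u ≤ L → v u u' = 0 := by
    intro u u' hc h1 h2 h3
    obtain ⟨k, hk⟩ := hinv u u' hc h1 h2 h3
    have : r u u' = ((-k : ℤ) : ℝ) := by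
      simp only [r, hk]; push_cast; ring
    simp only [v, this, round_intCast, sub_self]
  have hgap : ∀ u u', Cons W u u' → ¬ (u ∈ V ∧ u' ∈ V ∧ u' - u ≤ L) → L < u' - u := by
    intro u u' hc hn
    by_cases h1 : u ∈ V
    · by_cases h2 : u' ∈ V
      · by_contra h3
        exact hn ⟨h1, h2, by omega⟩
      · have := hV u' hc.2.1 h2 u hc.1 (by have := hc.2.2.1; omega)
        have := hc.2.2.1
        omega
    · have := hV u hc.1 h1 u' hc.2.1 (by have := hc.2.2.1; omega)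
      have := hc.2.2.1
      omega
  have hsb : ∀ i ∈ nbhd V' L', |s i| ≤ 1 / (2 * L) := by
    intro i _
    by_cases hex : ∃ p : ℕ × ℕ, Cons W p.1 p.2 ∧ p.1 ∈ V' ∧ p.2 ∈ V' ∧ p.2 - p.1 ≤ L' ∧ p.1 ≤ i ∧ i < p.2
    · obtain ⟨⟨u, u'⟩, hc, h1, h2, h3, h4, h5⟩ := hex
      simp only at hc h1 h2 h3 h4 h5
      rw [hs u u' hc h1 h2 h3 i h4 h5]
      by_cases hlev : u ∈ V ∧ u' ∈ V ∧ u' - u ≤ L
      · rw [hv0 u u' hc hlev.1 hlev.2.1 hlev.2.2]
        simp
      · have hg := hgap u u' hc hlev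
        have hlt := hc.2.2.1
        have hg' : (L : ℝ) ≤ (u' : ℝ) - u := by
          rw [le_sub_iff_add_le]
          exact_mod_cast (by omega : L + u ≤ u')
        have hL' : (0 : ℝ) < L := by exact_mod_cast hL
        rw [abs_div, abs_of_pos (by linarith : (0 : ℝ) < (u' : ℝ) - u)]
        calc |v u u'| / ((u' : ℝ) - u) ≤ (1 / 2) / L := by
              gcongr
              exact hv u u'
          _ = 1 / (2 * L) := by field_simp
    · simp only [s, dif_neg hex]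
      simp
  obtain ⟨a, ha1, ha2, ha3⟩ := hsep.interp (f := s) (c := 1 / (2 * L)) (by positivity) hsb
  have hZ : ∀ u u', Cons W u u' → u ∈ V' → u' ∈ V' → u' - u ≤ L' → ∀ i, u ≤ i → i < u' →
      a i = v u u' / ((u' : ℝ) - u) := by
    intro u u' hc h1 h2 h3 i h4 h5
    rw [ha3 i ⟨u, h1, by omega, by omega⟩, hs u u' hc h1 h2 h3 i h4 h5]
  refine ⟨fun n => b n + a n, ⟨hb.add ha1, ?_⟩, ?_, ?_, ?_⟩
  · intro u u' hc h1 h2 h3
    refine ⟨-round (r u u'), ?_⟩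
    rw [Finset.sum_add_distrib]
    have h4 : ∑ i ∈ Finset.Ico u u', a i = v u u' := by
      rw [Finset.sum_congr rfl (g := fun _ => v u u' / ((u' : ℝ) - u))]
      · rw [Finset.sum_const, Nat.card_Ico, nsmul_eq_mul, Nat.cast_sub hc.2.2.1.le]
        have : ((u' : ℝ) - u) ≠ 0 := by
          have : (u : ℝ) < u' := by exact_mod_cast hc.2.2.1
          linarith
        field_simp
      · intro i hi
        rw [Finset.mem_Ico] at hi
        exact hZ u u' hc h1 h2 h3 i hi.1 hi.2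
    rw [h4]
    simp only [v, r]
    push_cast
    ring
  · convert ha1 using 2 with n
    ring
  · intro n
    have : b n + a n - b n = a n := by ring
    rw [this]
    exact ha2 n
  · intro u u' hc h1 h2 h3 h1' h2' h3' i h4 h5
    show b i + a i = b i
    rw [hZ u u' hc h1' h2' h3' i h4 h5, hv0 u u' hc h1 h2 h3]
    simp

/-- Slowly varying solution of the prescribed sum problem. -/
theorem slow_sum {W : Set ℕ} {Wm : ℕ → Set ℕ} {L0 : ℕ} (hL0 : 0 < L0)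
    (hmono : ∀ m, Wm m ⊆ Wm (m + 1)) (hW : ∀ u ∈ W, ∀ u' ∈ W, u < u' → ∃ m, u ∈ Wm m ∧ u' ∈ Wm m)
    (hiso : ∀ m, ∀ u ∈ W, u ∉ Wm m → ∀ w ∈ W, w ≠ u → (u + 2 ^ m * L0 < w ∨ w + 2 ^ m * L0 < u))
    (hsep : ∀ m, Sep (nbhd (Wm m) (2 ^ m * L0))) (t : ℕ → ℝ) (ht : ∀ u ∈ Wm 0, t u = 0) :
    ∃ a : ℕ → ℝ, RD a ∧ (∀ n, |a n| ≤ 1 / L0) ∧
      ∀ u ∈ W, ∀ u' ∈ W, u ≤ u' → ∃ k : ℤ, ∑ i ∈ Finset.Ico u u', a i = t u' - t u + k := by
  have hmono' : ∀ m m', m ≤ m' → Wm m ⊆ Wm m' := by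
    intro m m' h
    induction h with
    | refl => exact subset_rfl
    | step _ ih => exact ih.trans (hmono _)
  obtain ⟨b, hb0, hbP, hbR⟩ := exists_seq_dep
    (P := fun m b => RD b ∧ ∀ u u', Cons W u u' → u ∈ Wm m → u' ∈ Wm m → u' - u ≤ 2 ^ m * L0 →
      ∃ k : ℤ, ∑ i ∈ Finset.Ico u u', b i = t u' - t u + k)
    (R := fun m b b' => RD (fun n => b' n - b n) ∧ (∀ n, |b' n - b n| ≤ 1 / (2 * ((2 ^ m * L0 : ℕ) : ℝ))) ∧
        ∀ u u', Cons W u u' → u ∈ Wm m → u' ∈ Wm m → u' - u ≤ 2 ^ m * L0 →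
          u ∈ Wm (m + 1) → u' ∈ Wm (m + 1) → u' - u ≤ 2 ^ (m + 1) * L0 →
          ∀ i, u ≤ i → i < u' → b' i = b i)
    (fun _ => 0)
    (by
      refine ⟨RD.const 0, ?_⟩
      intro u u' _ h1 h2 _
      exact ⟨0, by simp [ht u h1, ht u' h2]⟩)
    (by
      rintro m b ⟨h1, h2⟩
      exact step (V := Wm m) (V' := Wm (m + 1)) (L := 2 ^ m * L0) (L' := 2 ^ (m + 1) * L0)
        (by positivity) (hiso m) (hsep (m + 1)) t h1 h2)
  let η : ℕ → ℝ := fun m => 1 / (2 * ((2 ^ m * L0 : ℕ) : ℝ))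
  have hL0' : (0 : ℝ) < L0 := by exact_mod_cast hL0
  have hηeq : ∀ m, η m = (1 / (2 * L0)) * (1 / 2 : ℝ) ^ m := by
    intro m
    simp only [η]
    push_cast
    rw [one_div_pow]
    field_simp
  have hη : HasSum η (1 / L0) := by
    have h := hasSum_geometric_two.mul_left (1 / (2 * (L0 : ℝ)))
    have e : (fun i : ℕ => 1 / (2 * (L0 : ℝ)) * (1 / 2) ^ i) = η := by
      funext m; rw [hηeq]
    rw [e] at h
    have e2 : 1 / (2 * (L0 : ℝ)) * 2 = 1 / L0 := by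
      field_simp
    rwa [e2] at h
  have hterm : ∀ m n, |b (m + 1) n - b m n| ≤ η m := fun m n => (hbR m).2.1 n
  have hsumm : ∀ n, Summable fun m => b (m + 1) n - b m n := fun n =>
    Summable.of_norm_bounded hη.summable (fun m => hterm m n)
  refine ⟨fun n => ∑' m, (b (m + 1) n - b m n), ?_, ?_, ?_⟩
  · exact RD.tsum (fun m => (hbR m).1) hη.summable hterm
  · intro n
    calc |∑' m, (b (m + 1) n - b m n)| ≤ ∑' m, |b (m + 1) n - b m n| := by
          have := norm_tsum_le_tsum_norm (hsumm n).norm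
          simpa only [Real.norm_eq_abs] using this
      _ ≤ ∑' m, η m := (hsumm n).abs.tsum_le_tsum (fun m => hterm m n) hη.summable
      _ = 1 / L0 := hη.tsum_eq
  · -- consecutive pairs
    have hcons : ∀ u u', Cons W u u' →
        ∃ k : ℤ, ∑ i ∈ Finset.Ico u u', (∑' m, (b (m + 1) i - b m i)) = t u' - t u + k := by
      intro u u' hc
      obtain ⟨m1, hm1, hm1'⟩ := hW u hc.1 u' hc.2.1 hc.2.2.1
      obtain ⟨m, hm, hgap⟩ : ∃ m, m1 ≤ m ∧ u' - u ≤ 2 ^ m * L0 := by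
        refine ⟨m1 + (u' - u), by omega, ?_⟩
        calc u' - u ≤ 2 ^ (u' - u) := (Nat.lt_two_pow_self).le
          _ ≤ 2 ^ (m1 + (u' - u)) := Nat.pow_le_pow_right (by norm_num) (by omega)
          _ ≤ 2 ^ (m1 + (u' - u)) * L0 := Nat.le_mul_of_pos_right _ hL0
      have hu : u ∈ Wm m := hmono' m1 m hm hm1
      have hu' : u' ∈ Wm m := hmono' m1 m hm hm1'
      have hstab : ∀ m' ≥ m, ∀ i, u ≤ i → i < u' → b (m' + 1) i - b m' i = 0 := by
        intro m' hm' i h1 h2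
        have hp : 2 ^ m * L0 ≤ 2 ^ m' * L0 :=
          Nat.mul_le_mul_right _ (Nat.pow_le_pow_right (by norm_num) hm')
        have hp' : 2 ^ m * L0 ≤ 2 ^ (m' + 1) * L0 :=
          Nat.mul_le_mul_right _ (Nat.pow_le_pow_right (by norm_num) (by omega))
        rw [(hbR m').2.2 u u' hc (hmono' m m' hm' hu) (hmono' m m' hm' hu') (by omega)
          (hmono' m (m' + 1) (by omega) hu) (hmono' m (m' + 1) (by omega) hu') (by omega) i h1 h2,
          sub_self]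
      have hval : ∀ i, u ≤ i → i < u' → ∑' m', (b (m' + 1) i - b m' i) = b m i := by
        intro i h1 h2
        rw [tsum_eq_sum (s := Finset.range m)]
        · rw [Finset.sum_range_sub (fun m' => b m' i), hb0]
          simp
        · intro m' hm'
          exact hstab m' (by simpa using hm') i h1 h2
      obtain ⟨k, hk⟩ := (hbP m).2 u u' hc hu hu' hgap
      refine ⟨k, ?_⟩
      rw [← hk]
      refine Finset.sum_congr rfl fun i hi => ?_
      rw [Finset.mem_Ico] at hi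
      exact hval i hi.1 hi.2
    have hch := Cons.chain (W := W) (T := fun u u' => u ≤ u' ∧ ∃ k : ℤ,
      ∑ i ∈ Finset.Ico u u', (∑' m, (b (m + 1) i - b m i)) = t u' - t u + k)
      (fun u _ => ⟨le_rfl, 0, by simp⟩)
      (fun u u' hc => ⟨hc.2.2.1.le, hcons u u' hc⟩) (by
        rintro u v w _ _ _ ⟨huv, k1, hk1⟩ ⟨hvw, k2, hk2⟩
        refine ⟨huv.trans hvw, k1 + k2, ?_⟩
        rw [← Finset.sum_Ico_consecutive _ huv hvw, hk1, hk2]
        push_cast
        ring)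
    intro u hu u' hu' hle
    exact (hch u hu u' hu' hle).2

/-- Slowly varying `0`-`1` valued interpolation on `W`. -/
theorem slow_sep {W : Set ℕ} {Wm : ℕ → Set ℕ} {L0 : ℕ} (hL0 : 0 < L0)
    (hmono : ∀ m, Wm m ⊆ Wm (m + 1)) (hW : ∀ u ∈ W, ∀ u' ∈ W, u < u' → ∃ m, u ∈ Wm m ∧ u' ∈ Wm m)
    (hiso : ∀ m, ∀ u ∈ W, u ∉ Wm m → ∀ w ∈ W, w ≠ u → (u + 2 ^ m * L0 < w ∨ w + 2 ^ m * L0 < u))
    (hsep : ∀ m, Sep (nbhd (Wm m) (2 ^ m * L0))) (A : Set ℕ) (hA : ∀ u ∈ Wm 0, u ∉ A) :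
    ∃ ψ : ℕ → ℝ, RD ψ ∧ (∀ n, 0 ≤ ψ n ∧ ψ n ≤ 1) ∧
      (∀ u ∈ W, (u ∈ A → ψ u = 1) ∧ (u ∉ A → ψ u = 0)) ∧
      ∀ (n u K : ℕ), n ≤ u + K → u ≤ n + K → |ψ n - ψ u| ≤ 4 * K / L0 := by
  classical
  rcases W.eq_empty_or_nonempty with hWe | ⟨w0, hw0⟩
  · subst hWe
    refine ⟨fun _ => 0, RD.const 0, fun n => by simp, fun u hu => absurd hu (Set.notMem_empty u), ?_⟩
    intro n u K _ _
    simp only [sub_self, abs_zero]
    positivity
  let t : ℕ → ℝ := fun u => if u ∈ A then 1 / 2 else 0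
  obtain ⟨a, ha1, ha2, ha3⟩ := slow_sum hL0 hmono hW hiso hsep t
    (fun u hu => by simp only [t, if_neg (hA u hu)])
  let S : ℕ → ℝ := fun n => ∑ i ∈ Finset.range n, a i
  have hS : ∀ u u', u ≤ u' → S u' - S u = ∑ i ∈ Finset.Ico u u', a i := by
    intro u u' h
    simp only [S]
    rw [Finset.sum_Ico_eq_sub _ h]
  have hSW : ∀ u ∈ W, ∃ k : ℤ, S u - (S w0 - t w0) = t u + k := by
    intro u hu
    rcases le_total w0 u with h | h
    · obtain ⟨k, hk⟩ := ha3 w0 hw0 u hu h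
      refine ⟨k, ?_⟩
      have := hS w0 u h
      rw [hk] at this
      linarith
    · obtain ⟨k, hk⟩ := ha3 u hu w0 hw0 h
      refine ⟨-k, ?_⟩
      have := hS u w0 h
      rw [hk] at this
      push_cast
      linarith
  have hL0' : (0 : ℝ) < L0 := by exact_mod_cast hL0
  have hSdiff : ∀ u u' K : ℕ, u ≤ u' → u' ≤ u + K → |S u' - S u| ≤ K / L0 := by
    intro u u' K h h'
    rw [hS u u' h]
    calc |∑ i ∈ Finset.Ico u u', a i| ≤ ∑ i ∈ Finset.Ico u u', |a i| :=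
          Finset.abs_sum_le_sum_abs _ _
      _ ≤ ∑ i ∈ Finset.Ico u u', 1 / (L0 : ℝ) := Finset.sum_le_sum fun i _ => ha2 i
      _ = ((u' - u : ℕ) : ℝ) * (1 / L0) := by
          rw [Finset.sum_const, Nat.card_Ico, nsmul_eq_mul]
      _ ≤ K * (1 / L0) := by
          have : ((u' - u : ℕ) : ℝ) ≤ K := by exact_mod_cast (by omega : u' - u ≤ K)
          gcongr
      _ = K / L0 := by ring
  let c : ℝ := 2 * Real.pi * (S w0 - t w0)
  have hθ : ∀ n, (∑ i ∈ Finset.range n, 2 * Real.pi * a i) - c =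
      2 * Real.pi * (S n - (S w0 - t w0)) := by
    intro n
    simp only [c, S]
    rw [← Finset.mul_sum]
    ring
  refine ⟨fun n => (1 - Real.cos ((∑ i ∈ Finset.range n, 2 * Real.pi * a i) - c)) / 2,
    ?_, ?_, ?_, ?_⟩
  · exact ((ha1.const_mul (2 * Real.pi)).cos_sum_sub c).comp1
      (g := fun x => (1 - x) / 2) (by fun_prop)
  · intro n
    have h1 := Real.cos_le_one ((∑ i ∈ Finset.range n, 2 * Real.pi * a i) - c)
    have h2 := Real.neg_one_le_cos ((∑ i ∈ Finset.range n, 2 * Real.pi * a i) - c)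
    constructor <;> linarith
  · intro u hu
    obtain ⟨k, hk⟩ := hSW u hu
    simp only [hθ, hk]
    constructor
    · intro huA
      simp only [t, if_pos huA]
      have : 2 * Real.pi * (1 / 2 + (k : ℝ)) = Real.pi + k * (2 * Real.pi) := by ring
      rw [this, Real.cos_add_int_mul_two_pi, Real.cos_pi]
      norm_num
    · intro huA
      simp only [t, if_neg huA]
      have : 2 * Real.pi * (0 + (k : ℝ)) = 0 + k * (2 * Real.pi) := by ring
      rw [this, Real.cos_add_int_mul_two_pi, Real.cos_zero]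
      norm_num
  · intro n u K h1 h2
    have hSnu : |S n - S u| ≤ K / L0 := by
      rcases le_total u n with h | h
      · exact hSdiff u n K h h1
      · rw [abs_sub_comm]
        exact hSdiff n u K h h2
    have hcos : ∀ x y : ℝ, |Real.cos x - Real.cos y| ≤ |x - y| := by
      intro x y
      have h := Real.lipschitzWith_cos.dist_le_mul x y
      simpa [Real.dist_eq] using h
    simp only [hθ]
    have e : (1 - Real.cos (2 * Real.pi * (S n - (S w0 - t w0)))) / 2 -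
        (1 - Real.cos (2 * Real.pi * (S u - (S w0 - t w0)))) / 2 =
        (Real.cos (2 * Real.pi * (S u - (S w0 - t w0))) -
          Real.cos (2 * Real.pi * (S n - (S w0 - t w0)))) / 2 := by ring
    rw [e, abs_div, abs_two]
    have h3 := hcos (2 * Real.pi * (S u - (S w0 - t w0))) (2 * Real.pi * (S n - (S w0 - t w0)))
    have e2 : 2 * Real.pi * (S u - (S w0 - t w0)) - 2 * Real.pi * (S n - (S w0 - t w0)) =
        (2 * Real.pi) * (S u - S n) := by ring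
    rw [e2, abs_mul, abs_of_pos (by positivity : (0 : ℝ) < 2 * Real.pi), abs_sub_comm (S u)] at h3
    have hpi := Real.pi_le_four
    have hKL : 0 ≤ (K : ℝ) / L0 := by positivity
    calc _ ≤ 2 * Real.pi * |S n - S u| / 2 := by gcongr
      _ = Real.pi * |S n - S u| := by ring
      _ ≤ 4 * (K / L0) := by gcongr
      _ = 4 * K / L0 := by ring

end Pool.Agent.Helper47_Distal
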